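import Pool.Agent.Y916.Af.All
import Pool.Agent.Y916.Af.Ind
import Pool.Agent.Y916.Sl.Many
import Pool.Agent.H340R2.LW

/-!
# `e`, `1/π` and Euler's constant at almost all tuples of algebraic points of bounded degree

Near a point `x = 0` of the base the periods of a family of varieties over `P¹`, defined over `ℚ`, are polynomials in
`log x` and in G-functions `h_1(x), ..., h_r(x)` with rational coefficients (and in limit periods). For almost all
`k`-tuples of algebraic integers `α_j` of degree at most `m`, each in its own number field, all polynomial relations of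
bounded degree over number fields of bounded degree (of any height) between `e`, `1/π`, `γ`, (all determinations of) the
`log α_j` and the numbers `h_i(1/α_j)` are trivial.

Parts of the proof by helper547, helper185, helper356, helper430, helper977, helper475, helper340 (see
`Pool.Agent.Y916.Af.All`), on the libraries of helper118 and helper120; the elimination of a transcendental number uses
`Pool.Agent.Y113.EU.core` (helper113); `e` and `π` are transcendental: `Pool.Agent.H340R2.LW`.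
-/

set_option autoImplicit false

open PowerSeries

namespace Pool.Agent.Results.MP_725b61_nt.AlgebraicTuples

/-- an integer polynomial as a power series with rational coefficients -/
noncomputable def toQ (P : Polynomial ℤ) : PowerSeries ℚ := ((P.map (Int.castRingHom ℚ) : Polynomial ℚ) : PowerSeries ℚ)

/-- the power series `P(u^e)` -/
noncomputable def atPow (e : ℕ) (P : Polynomial ℤ) : PowerSeries ℂ :=
  ((Polynomial.expand ℂ e (P.map (Int.castRingHom ℂ)) : Polynomial ℂ) : PowerSeries ℂ)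

/-- the matrices `G_s` over `ℤ[x]` with `T^s y^(s) = G_s y` for all solutions `y` of `T y' = A y` -/
noncomputable def iter {r : ℕ} (T : Polynomial ℤ) (A : Fin r → Fin r → Polynomial ℤ) : ℕ → Fin r → Fin r → Polynomial ℤ
  | 0 => fun i j => if i = j then 1 else 0
  | s + 1 => fun i j => T * Polynomial.derivative (iter T A s i j) + ∑ l, iter T A s i l * A l j -
      (s : Polynomial ℤ) * (Polynomial.derivative T * iter T A s i j)

/-- The system `T y' = A y` has a fundamental matrix of solutions of the form `u^(-M) ∑_n Φ_n(u) (log u)^n` with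
`u^e = x` and convergent power series `Φ_n`: the point `0` is an ordinary point or a regular singularity with rational
exponents. -/
def QuasiUnipotent {r : ℕ} (T : Polynomial ℤ) (A : Fin r → Fin r → Polynomial ℤ) : Prop :=
  ∃ (e M : ℕ) (K : ℝ) (Φ : Matrix (Fin r) (Fin r) (Polynomial (PowerSeries ℂ))), 1 ≤ e ∧ Φ.det ≠ 0 ∧
    (∀ i j n m, ‖coeff m ((Φ i j).coeff n)‖ ≤ K ^ (m + 1)) ∧
    ∀ i j n, atPow e T * (X * PowerSeries.derivative ℂ ((Φ i j).coeff n) +
        ((n : PowerSeries ℂ) + 1) * (Φ i j).coeff (n + 1) - (M : PowerSeries ℂ) * (Φ i j).coeff n) =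
      (e : PowerSeries ℂ) * X ^ e * ∑ l, atPow e (A i l) * (Φ l j).coeff n

/-- `h_1, ..., h_r` are G-functions with rational coefficients which solve the differential system `T y' = A y`, with
the conditions of Siegel and Galochkin, and the system is regular with rational exponents at `0`. -/
structure GFamily {r : ℕ} (T : Polynomial ℤ) (A : Fin r → Fin r → Polynomial ℤ) (h : Fin r → PowerSeries ℚ) : Prop where
  /-- the denominator is not zero -/
  T_ne : T ≠ 0
  /-- the differential equations -/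
  ode : ∀ i, toQ T * PowerSeries.derivative ℚ (h i) = ∑ j, toQ (A i j) * h j
  /-- the coefficients have geometric growth -/
  size : ∃ C : ℝ, ∀ i m, |((coeff m (h i) : ℚ) : ℝ)| ≤ C ^ (m + 1)
  /-- the common denominators of the coefficients have geometric growth -/
  den : ∃ C : ℝ, ∀ m : ℕ, ∃ d : ℕ, 0 < d ∧ (d : ℝ) ≤ C ^ (m + 1) ∧ ∀ i, ∀ j ≤ m, ∃ a : ℤ, (d : ℚ) * coeff j (h i) = a
  /-- Galochkin's condition: the common denominators of the matrices `G_s / s!` have geometric growth -/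
  galochkin : ∃ C : ℝ, ∀ m : ℕ, ∃ d : ℕ, 0 < d ∧ (d : ℝ) ≤ C ^ (m + 1) ∧ ∀ s ≤ m, ∀ i j,
    ∃ H : Polynomial ℤ, (d : Polynomial ℤ) * iter T A s i j = (s.factorial : Polynomial ℤ) * H
  /-- the local exponents at `0` are rational and the singularity is regular -/
  regular : QuasiUnipotent T A

section
variable {r k : ℕ}

/-- The family is connected: every element of the field `ℚ(x, h_1, ..., h_r)` which is algebraic over `ℚ(x)` is in
`ℚ(x)`; the elements of this field are the quotients `A(h) / B(h)`, where `A`, `B` are polynomials over `ℚ[x]`. -/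
def Connected (h : Fin r → PowerSeries ℚ) : Prop := ∀ A B : MvPolynomial (Fin r) (Polynomial ℚ),
  IsAlgebraic (Polynomial ℚ) (algebraMap (PowerSeries ℚ) (FractionRing (PowerSeries ℚ)) (MvPolynomial.aeval h A) /
    algebraMap (PowerSeries ℚ) (FractionRing (PowerSeries ℚ)) (MvPolynomial.aeval h B)) →
  ∃ a b : Polynomial ℚ, b ≠ 0 ∧ algebraMap (PowerSeries ℚ) (FractionRing (PowerSeries ℚ)) (MvPolynomial.aeval h A) /
    algebraMap (PowerSeries ℚ) (FractionRing (PowerSeries ℚ)) (MvPolynomial.aeval h B) =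
      algebraMap (Polynomial ℚ) (FractionRing (PowerSeries ℚ)) a /
        algebraMap (Polynomial ℚ) (FractionRing (PowerSeries ℚ)) b

/-- the algebraic integers of degree at most `m` all of whose conjugates have absolute value at most `T` -/
def integers (m T : ℕ) : Set ℂ :=
  {α | IsIntegral ℤ α ∧ (minpoly ℚ α).natDegree ≤ m ∧ ∀ z : ℂ, Polynomial.aeval z (minpoly ℚ α) = 0 → ‖z‖ ≤ T}

/-- the value `h_i(1 / α)` -/
noncomputable def value (h : Fin r → PowerSeries ℚ) (α : ℂ) (i : Fin r) : ℂ :=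
  ∑' n : ℕ, ((coeff n (h i) : ℚ) : ℂ) * (1 / α) ^ n

/-- the point with the coordinates `ℓ_j` and `h_i(1 / α_j)` -/
noncomputable def point (h : Fin r → PowerSeries ℚ) (α ℓ : Fin k → ℂ) : Fin k × Option (Fin r) → ℂ :=
  fun a => a.2.elim (ℓ a.1) fun i => value h (α a.1) i

/-- the common zeros of the specialisations at `x = 1 / α` of all polynomial relations `R(x, h(x)) = 0` over `ℚ[x]` -/
def Fibre (h : Fin r → PowerSeries ℚ) (α : ℂ) : Set (Fin r → ℂ) :=
  {y | ∀ R : MvPolynomial (Fin r) (Polynomial ℚ), MvPolynomial.aeval h R = 0 →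
    MvPolynomial.eval₂ (Polynomial.aeval (1 / α) : Polynomial ℚ →ₐ[ℚ] ℂ).toRingHom y R = 0}

/-- the product of the fibres at `1 / α_j` and of `k` lines, on which the logarithms vary freely -/
def Fibres (h : Fin r → PowerSeries ℚ) (α : Fin k → ℂ) : Set (Fin k × Option (Fin r) → ℂ) :=
  {y | ∀ j, (fun i => y (j, some i)) ∈ Fibre h (α j)}

/-- the numbers `e`, `1 / π` and Euler's constant -/
noncomputable def three : Fin 3 → ℂ := ![(Real.exp 1 : ℂ), 1 / (Real.pi : ℂ), (Real.eulerMascheroniConstant : ℂ)]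

/-- For all logarithms `ℓ_j` of the `α_j`, every number field `K` of degree `≤ d` and every relation
`P(e, 1/π, γ; ℓ, h(1/α)) = 0` of degree `≤ δ` over `K`: (a) the relation holds for all points of the product of the
fibres in place of `(ℓ, h(1/α))`; (b) if `P` involves at most one of the three numbers `e`, `1/π`, `γ` and this number is
transcendental, then the relation holds for all values of this variable. -/
def OnlyTrivial (h : Fin r → PowerSeries ℚ) (δ d : ℕ) (α : Fin k → ℂ) : Prop :=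
  ∀ ℓ : Fin k → ℂ, (∀ j, Complex.exp (ℓ j) = α j) →
  ∀ K : IntermediateField ℚ ℂ, FiniteDimensional ℚ K → Module.finrank ℚ K ≤ d →
  ∀ P : MvPolynomial (Fin 3 ⊕ Fin k × Option (Fin r)) K, P.totalDegree ≤ δ →
  MvPolynomial.aeval (Sum.elim three (point h α ℓ)) P = 0 →
    (∀ y ∈ Fibres h α, MvPolynomial.aeval (Sum.elim three y) P = 0) ∧
    ∀ i : Fin 3, Transcendental ℚ (three i) → (∀ i' : Fin 3, i' ≠ i → Sum.inl i' ∉ P.vars) →
      ∀ v : Fin 3 → ℂ, MvPolynomial.aeval (Sum.elim v (point h α ℓ)) P = 0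

end

theorem iter_eq {r : ℕ} (T : Polynomial ℤ) (A : Fin r → Fin r → Polynomial ℤ) (s : ℕ) :
    iter T A s = Pool.Agent.Y120.GH.itm T A s := by
  induction s with
  | zero => rfl
  | succ s ih =>
    funext i j
    rw [iter, Pool.Agent.Y120.GH.itm, ih]

theorem qu_eq {r : ℕ} {T : Polynomial ℤ} {A : Fin r → Fin r → Polynomial ℤ} (h : QuasiUnipotent T A) :
    Pool.Agent.Y120.GH.QU0 T A := by
  obtain ⟨e, M, K, Φ, he, hdet, hc, heq⟩ := h
  have he0 : e ≠ 0 := by omega
  refine ⟨e, he0, M, K, Φ, hc, fun i j n => ?_, hdet⟩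
  have h1 := heq i j n
  simp only [atPow] at h1
  rw [Pool.Agent.Y120.GH.expand_poly he0]
  simp only [Pool.Agent.Y120.GH.expand_poly he0]
  exact h1

theorem GFamily.fam {r : ℕ} {T : Polynomial ℤ} {A : Fin r → Fin r → Polynomial ℤ} {h : Fin r → PowerSeries ℚ}
    (hG : GFamily T A h) : Pool.Agent.Y916.Af.GFam T A h := by
  refine ⟨hG.T_ne, hG.ode, hG.size, hG.den, ?_, qu_eq hG.regular⟩
  obtain ⟨C, hC⟩ := hG.galochkin
  refine ⟨C, fun m => ?_⟩
  obtain ⟨d, h1, h2, h3⟩ := hC m
  refine ⟨d, h1, h2, fun s hs i' j' => ?_⟩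
  rw [← iter_eq]
  exact h3 s hs i' j'

/-- polynomials in one of the constants only -/
theorem one_const {r k : ℕ} {h : Fin r → PowerSeries ℚ} {α ℓ : Fin k → ℂ} (hα : ∀ j, IsAlgebraic ℚ (1 / α j))
    (hz : point h α ℓ ∈ Fibres h α) (K : IntermediateField ℚ ℂ) (hK : FiniteDimensional ℚ K)
    (P : MvPolynomial (Fin 3 ⊕ Fin k × Option (Fin r)) K)
    (hP : ∀ y ∈ Fibres h α, MvPolynomial.aeval (Sum.elim three y) P = 0) (i : Fin 3) (hi : Transcendental ℚ (three i))
    (hv : ∀ i' : Fin 3, i' ≠ i → Sum.inl i' ∉ P.vars) (v : Fin 3 → ℂ) :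
    MvPolynomial.aeval (Sum.elim v (point h α ℓ)) P = 0 := by
  classical
  set ρ : Fin 3 ⊕ Fin k × Option (Fin r) → Unit ⊕ Fin k × Option (Fin r) := Sum.map (fun _ => ()) id with hρ
  have hev : ∀ (u : Fin 3 → ℂ) (y : Fin k × Option (Fin r) → ℂ),
      MvPolynomial.aeval (Sum.elim (fun _ : Unit => u i) y) (MvPolynomial.rename ρ P) =
        MvPolynomial.aeval (Sum.elim u y) P := by
    intro u y
    rw [MvPolynomial.aeval_rename, MvPolynomial.aeval_def, MvPolynomial.aeval_def]
    refine MvPolynomial.eval₂_congr (algebraMap K ℂ) (Sum.elim (fun _ : Unit => u i) y ∘ ρ) (Sum.elim u y) ?_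
    intro x s hx hs
    rcases x with x | x
    · by_cases hxi : x = i
      · subst hxi
        rfl
      · exact absurd (MvPolynomial.mem_vars _ |>.2 ⟨s, MvPolynomial.mem_support_iff.2 hs, hx⟩) (hv x hxi)
    · rfl
  rw [← hev]
  have hw : AlgebraicIndependent ℚ (fun _ : Unit => three i) := by
    rw [algebraicIndependent_unique_type_iff]
    exact hi
  refine Pool.Agent.Y916.Af.indepE (x := fun j => 1 / α j) hα (z := point h α ℓ) hz (fun _ : Unit => three i) hw K hK
    (MvPolynomial.rename ρ P) (fun y hy => ?_) (fun _ => v i)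
  rw [hev]
  exact hP y hy

/-- the numbers `e` and `1 / π` are transcendental -/
theorem three_tr : Transcendental ℚ (three 0) ∧ Transcendental ℚ (three 1) := by
  constructor
  · intro h
    have h1 : IsAlgebraic ℚ ((Real.exp 1 : ℝ) : ℂ) := h
    apply Pool.Agent.H340R2.LW.transcendental_exp_one_complex
    simpa using h1
  · intro h
    have h1 : IsAlgebraic ℚ (1 / (Real.pi : ℂ)) := h
    have h2 := h1.inv
    rw [one_div, inv_inv] at h2
    exact Pool.Agent.H340R2.LW.transcendental_pi_complex h2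

/-- the `ℚ`-space spanned by `1`, `e`, `1/π`, `γ` -/
theorem exists_space : ∃ W : Submodule ℚ ℂ, Module.Finite ℚ W ∧ (1 : ℂ) ∈ W ∧ ∀ i, three i ∈ W := by
  refine ⟨Submodule.span ℚ (Set.range fun o : Option (Fin 3) => o.elim 1 three),
    Module.Finite.span_of_finite ℚ (Set.finite_range _), Submodule.subset_span ⟨none, rfl⟩,
    fun i => Submodule.subset_span ⟨some i, rfl⟩⟩

/-- Let `h = (h_1, ..., h_r)` be a connected family of G-functions and `m ≥ 1`. For all `k`, `δ`, `d` there are `c > 0`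
and `C` such that for every `T ≥ 1`, among all `k`-tuples of algebraic integers `α_j` of degree at most `m` with
conjugates at most `T`, the proportion of those for which a relation of degree at most `δ` over a number field of degree
at most `d` between `e`, `1/π`, `γ`, logarithms of the `α_j` and the `h_i(1 / α_j)` is not trivial is at most `C T^(-c)`.
In particular `e` is not a root of a nonzero polynomial whose coefficients are polynomials in these logarithms and values,
and the same holds for `1/π`. -/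
theorem result {r : ℕ} (T₀ : Polynomial ℤ) (A₀ : Fin r → Fin r → Polynomial ℤ) (h : Fin r → PowerSeries ℚ)
    (hG : GFamily T₀ A₀ h) (hc : Connected h) (m : ℕ) (hm : 1 ≤ m) (k δ d : ℕ) :
    (Transcendental ℚ (three 0) ∧ Transcendental ℚ (three 1)) ∧
    ∃ c : ℝ, 0 < c ∧ ∃ C : ℝ, ∀ T : ℕ, 1 ≤ T → (integers m T).Finite ∧
      ({α : Fin k → ℂ | (∀ i, α i ∈ integers m T) ∧ ¬ OnlyTrivial h δ d α}.ncard : ℝ) ≤
        C * (T : ℝ) ^ (-c) * ((integers m T).ncard : ℝ) ^ k := by
  refine ⟨three_tr, ?_⟩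
  obtain ⟨W, hW, hW1, hW3⟩ := exists_space
  obtain ⟨hV1, hV2⟩ := Pool.Agent.Y916.Om.finrank_pow_le W δ
  obtain ⟨c₁, hc₁, h₁⟩ := Pool.Agent.Y916.Sl.many m hm
  obtain ⟨c₂, hc₂, C₂, hC₂, h₂⟩ := Pool.Agent.Y916.Af.tupC Pool.Agent.Y916.Af.nr Pool.Agent.Y916.Af.t_br2
    Pool.Agent.Y916.Af.conn hG.fam hc k m δ d (Module.finrank ℚ (W ^ δ : Submodule ℚ ℂ))
  obtain ⟨B, hB1, hB⟩ := Pool.Agent.Y916.Af.val_memC hG.size
  obtain ⟨C₃, hC₃, h₃⟩ := Pool.Agent.Y916.Af.small_tuples m k B hB1
  refine ⟨min c₂ 1, lt_min hc₂ one_pos, (C₂ + C₃) / c₁ ^ k, fun T hT => ⟨Pool.Agent.Y916.Sl.sint_fin m T, ?_⟩⟩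
  obtain ⟨hf, hle⟩ := h₂ (W ^ δ) hV1 le_rfl T hT
  classical
  have hT1 : (1 : ℝ) ≤ T := by exact_mod_cast hT
  set X := {α : Fin k → ℂ | (∀ i, Pool.Agent.Y916.Sl.AInt m T (α i)) ∧ Pool.Agent.Y916.Af.ExcC h δ d (W ^ δ) α} with hX
  set Z := (Fintype.piFinset fun _ : Fin k => Pool.Agent.Y916.Sl.NF m T).filter fun α => ∃ i, ‖α i‖ ≤ B with hZ
  have hZc : (Z.card : ℝ) ≤ C₃ * (T : ℝ) ^ (((k * Pool.Agent.Y916.Sl.Mm m : ℕ) : ℝ) - 1) := by
    have h4 := h₃ T hT
    convert h4 using 3
  have hsub : {α : Fin k → ℂ | (∀ i, α i ∈ integers m T) ∧ ¬ OnlyTrivial h δ d α} ⊆ X ∪ (Z : Set (Fin k → ℂ)) := by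
    rintro α ⟨hα1, hα2⟩
    have hα : ∀ i, Pool.Agent.Y916.Sl.AInt m T (α i) := fun i => Pool.Agent.Y916.Sl.SInt.aint (hα1 i)
    by_cases hs : ∃ i, ‖α i‖ ≤ B
    · right
      rw [hZ, Finset.mem_coe, Finset.mem_filter, Fintype.mem_piFinset]
      exact ⟨fun i => Pool.Agent.Y916.Sl.mem_NF.2 (hα i), hs⟩
    · left
      push Not at hs
      refine ⟨hα, ?_⟩
      by_contra hexc
      apply hα2
      intro ℓ hℓ K hK hKd P hPd hP0
      have hz : point h α ℓ ∈ Fibres h α := fun j => hB _ (hs j)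
      have ha : ∀ y ∈ Fibres h α, MvPolynomial.aeval (Sum.elim three y) P = 0 := by
        intro y hy
        by_contra hne
        refine hexc ⟨ℓ, hℓ, K, hK, hKd, MvPolynomial.aeval (Sum.elim (fun i => MvPolynomial.C (three i)) MvPolynomial.X) P,
          Pool.Agent.Y916.Af.deg_sub K three P hPd,
          fun s => Pool.Agent.Y916.Af.coeff_sub K three W hW1 hW3 P hPd s, ?_, y, hy, ?_⟩
        · rw [Pool.Agent.Y916.Af.eval_sub]
          exact hP0
        · rw [Pool.Agent.Y916.Af.eval_sub]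
          exact hne
      refine ⟨ha, fun i hi hv v => one_const (fun j => ?_) hz K hK P ha i hi hv v⟩
      rw [one_div]
      have h5 : IsAlgebraic ℤ (α j) := (hα1 j).1.isAlgebraic
      exact (h5.extendScalars (algebraMap ℤ ℚ).injective_int).inv
  have hfin : (X ∪ (Z : Set (Fin k → ℂ))).Finite := hf.union (Finset.finite_toSet _)
  have h5 := (Set.ncard_le_ncard hsub hfin).trans (Set.ncard_union_le _ _)
  rw [Set.ncard_coe_finset] at h5
  have h6 : (T : ℝ) ^ (((k * Pool.Agent.Y916.Sl.Mm m : ℕ) : ℝ) - c₂) ≤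
      (T : ℝ) ^ (((k * Pool.Agent.Y916.Sl.Mm m : ℕ) : ℝ) - min c₂ 1) :=
    Real.rpow_le_rpow_of_exponent_le hT1 (by linarith [min_le_left c₂ 1])
  have h7 : (T : ℝ) ^ (((k * Pool.Agent.Y916.Sl.Mm m : ℕ) : ℝ) - 1) ≤
      (T : ℝ) ^ (((k * Pool.Agent.Y916.Sl.Mm m : ℕ) : ℝ) - min c₂ 1) :=
    Real.rpow_le_rpow_of_exponent_le hT1 (by linarith [min_le_right c₂ 1])
  have h8 : ({α : Fin k → ℂ | (∀ i, α i ∈ integers m T) ∧ ¬ OnlyTrivial h δ d α}.ncard : ℝ) ≤
      (C₂ + C₃) * (T : ℝ) ^ (((k * Pool.Agent.Y916.Sl.Mm m : ℕ) : ℝ) - min c₂ 1) := by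
    calc ({α : Fin k → ℂ | (∀ i, α i ∈ integers m T) ∧ ¬ OnlyTrivial h δ d α}.ncard : ℝ) ≤ (X.ncard : ℝ) + Z.card := by
          exact_mod_cast h5
      _ ≤ C₂ * (T : ℝ) ^ (((k * Pool.Agent.Y916.Sl.Mm m : ℕ) : ℝ) - min c₂ 1) +
          C₃ * (T : ℝ) ^ (((k * Pool.Agent.Y916.Sl.Mm m : ℕ) : ℝ) - min c₂ 1) :=
          add_le_add (hle.trans (mul_le_mul_of_nonneg_left h6 hC₂)) (hZc.trans (mul_le_mul_of_nonneg_left h7 hC₃))
      _ = _ := by ring
  exact h8.trans (Pool.Agent.Y916.Sl.prop_bound hc₁ (by positivity) hT (h₁ T hT))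

end Pool.Agent.Results.MP_725b61_nt.AlgebraicTuples
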