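import Pool.Agent.Y916.Af.All
import Pool.Agent.Y916.Af.Ind
import Pool.Agent.Y916.Af.Trd
import Pool.Agent.H340R2.LW

/-!
# `e`, `1/π` and Euler's constant in windows of fibres around algebraic numbers

Near a point `x = 0` of the base the periods of a family of varieties over `P¹`, defined over `ℚ`, are polynomials in
`log x` and in G-functions `h_1(x), ..., h_r(x)` with rational coefficients (and in limit periods). We consider the fibres
at the algebraic points `x = 1 / (ξ - G u)`, `1 ≤ u ≤ H`, of a window around an arbitrary algebraic number `ξ` of bounded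
degree, of height at most `|ξ|^A` and of absolute value at least `(H + 2)^E`. At most four fibres of the window are
exceptional: all polynomial relations of bounded degree over number fields of bounded degree (of any height) between
`e`, `1/π`, `γ`, the logarithms and the values of the `h_i` at any `k` different other fibres are trivial.

Parts of the proof by helper547, helper185, helper356, helper430, helper977, helper475, helper340 (see
`Pool.Agent.Y916.Af.All`), on the libraries of helper118 and helper120; the elimination of a transcendental number uses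
`Pool.Agent.Y113.EU.core` (helper113); `e` and `π` are transcendental: `Pool.Agent.H340R2.LW`.
-/

set_option autoImplicit false

open PowerSeries

namespace Pool.Agent.Results.MP_725b61_nt.AlgebraicWindows

/-- an integer polynomial as a power series with rational coefficients -/
noncomputable def toQ (P : Polynomial ℤ) : PowerSeries ℚ := ((P.map (Int.castRingHom ℚ) : Polynomial ℚ) : PowerSeries ℚ)

/-- the power series `P(u^e)` -/
noncomputable def atPow (e : ℕ) (P : Polynomial ℤ) : PowerSeries ℂ :=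
  ((Polynomial.expand ℂ e (P.map (Int.castRingHom ℂ)) : Polynomial ℂ) : PowerSeries ℂ)

/-- the matrices `G_s` over `ℤ[x]` with `T^s y^(s) = G_s y` for all solutions `y` of `T y' = A y` -/
noncomputable def iter {r : ℕ} (T : Polynomial ℤ) (A : Fin r → Fin r → Polynomial ℤ) : ℕ → Fin r → Fin r → Polynomial ℤ
  | 0 => fun i j => if i = j then 1 else 0
  | s + 1 => fun i j => T * Polynomial.derivative (iter T A s i j) + ∑ l, iter T A s i l * A l j -
      (s : Polynomial ℤ) * (Polynomial.derivative T * iter T A s i j)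

/-- The system `T y' = A y` has a fundamental matrix of solutions of the form `u^(-M) ∑_n Φ_n(u) (log u)^n` with
`u^e = x` and convergent power series `Φ_n`: the point `0` is an ordinary point or a regular singularity with rational
exponents. -/
def QuasiUnipotent {r : ℕ} (T : Polynomial ℤ) (A : Fin r → Fin r → Polynomial ℤ) : Prop :=
  ∃ (e M : ℕ) (K : ℝ) (Φ : Matrix (Fin r) (Fin r) (Polynomial (PowerSeries ℂ))), 1 ≤ e ∧ Φ.det ≠ 0 ∧
    (∀ i j n m, ‖coeff m ((Φ i j).coeff n)‖ ≤ K ^ (m + 1)) ∧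
    ∀ i j n, atPow e T * (X * PowerSeries.derivative ℂ ((Φ i j).coeff n) +
        ((n : PowerSeries ℂ) + 1) * (Φ i j).coeff (n + 1) - (M : PowerSeries ℂ) * (Φ i j).coeff n) =
      (e : PowerSeries ℂ) * X ^ e * ∑ l, atPow e (A i l) * (Φ l j).coeff n

/-- `h_1, ..., h_r` are G-functions with rational coefficients which solve the differential system `T y' = A y`, with
the conditions of Siegel and Galochkin, and the system is regular with rational exponents at `0`. -/
structure GFamily {r : ℕ} (T : Polynomial ℤ) (A : Fin r → Fin r → Polynomial ℤ) (h : Fin r → PowerSeries ℚ) : Prop where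
  /-- the denominator is not zero -/
  T_ne : T ≠ 0
  /-- the differential equations -/
  ode : ∀ i, toQ T * PowerSeries.derivative ℚ (h i) = ∑ j, toQ (A i j) * h j
  /-- the coefficients have geometric growth -/
  size : ∃ C : ℝ, ∀ i m, |((coeff m (h i) : ℚ) : ℝ)| ≤ C ^ (m + 1)
  /-- the common denominators of the coefficients have geometric growth -/
  den : ∃ C : ℝ, ∀ m : ℕ, ∃ d : ℕ, 0 < d ∧ (d : ℝ) ≤ C ^ (m + 1) ∧ ∀ i, ∀ j ≤ m, ∃ a : ℤ, (d : ℚ) * coeff j (h i) = a
  /-- Galochkin's condition: the common denominators of the matrices `G_s / s!` have geometric growth -/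
  galochkin : ∃ C : ℝ, ∀ m : ℕ, ∃ d : ℕ, 0 < d ∧ (d : ℝ) ≤ C ^ (m + 1) ∧ ∀ s ≤ m, ∀ i j,
    ∃ H : Polynomial ℤ, (d : Polynomial ℤ) * iter T A s i j = (s.factorial : Polynomial ℤ) * H
  /-- the local exponents at `0` are rational and the singularity is regular -/
  regular : QuasiUnipotent T A

section
variable {r k : ℕ}

/-- The family is connected: every element of the field `ℚ(x, h_1, ..., h_r)` which is algebraic over `ℚ(x)` is in
`ℚ(x)`; the elements of this field are the quotients `A(h) / B(h)`, where `A`, `B` are polynomials over `ℚ[x]`. -/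
def Connected (h : Fin r → PowerSeries ℚ) : Prop := ∀ A B : MvPolynomial (Fin r) (Polynomial ℚ),
  IsAlgebraic (Polynomial ℚ) (algebraMap (PowerSeries ℚ) (FractionRing (PowerSeries ℚ)) (MvPolynomial.aeval h A) /
    algebraMap (PowerSeries ℚ) (FractionRing (PowerSeries ℚ)) (MvPolynomial.aeval h B)) →
  ∃ a b : Polynomial ℚ, b ≠ 0 ∧ algebraMap (PowerSeries ℚ) (FractionRing (PowerSeries ℚ)) (MvPolynomial.aeval h A) /
    algebraMap (PowerSeries ℚ) (FractionRing (PowerSeries ℚ)) (MvPolynomial.aeval h B) =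
      algebraMap (Polynomial ℚ) (FractionRing (PowerSeries ℚ)) a /
        algebraMap (Polynomial ℚ) (FractionRing (PowerSeries ℚ)) b

/-- the value `h_i(1 / α)` -/
noncomputable def value (h : Fin r → PowerSeries ℚ) (α : ℂ) (i : Fin r) : ℂ :=
  ∑' n : ℕ, ((coeff n (h i) : ℚ) : ℂ) * (1 / α) ^ n

/-- the point with the coordinates `ℓ_j` and `h_i(1 / α_j)` -/
noncomputable def point (h : Fin r → PowerSeries ℚ) (α ℓ : Fin k → ℂ) : Fin k × Option (Fin r) → ℂ :=
  fun a => a.2.elim (ℓ a.1) fun i => value h (α a.1) i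

/-- the common zeros of the specialisations at `x = 1 / α` of all polynomial relations `R(x, h(x)) = 0` over `ℚ[x]` -/
def Fibre (h : Fin r → PowerSeries ℚ) (α : ℂ) : Set (Fin r → ℂ) :=
  {y | ∀ R : MvPolynomial (Fin r) (Polynomial ℚ), MvPolynomial.aeval h R = 0 →
    MvPolynomial.eval₂ (Polynomial.aeval (1 / α) : Polynomial ℚ →ₐ[ℚ] ℂ).toRingHom y R = 0}

/-- the product of the fibres at `1 / α_j` and of `k` lines, on which the logarithms vary freely -/
def Fibres (h : Fin r → PowerSeries ℚ) (α : Fin k → ℂ) : Set (Fin k × Option (Fin r) → ℂ) :=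
  {y | ∀ j, (fun i => y (j, some i)) ∈ Fibre h (α j)}

/-- the numbers `e`, `1 / π` and Euler's constant -/
noncomputable def three : Fin 3 → ℂ := ![(Real.exp 1 : ℂ), 1 / (Real.pi : ℂ), (Real.eulerMascheroniConstant : ℂ)]

/-- For all logarithms `ℓ_j` of the `α_j`, every number field `K` of degree `≤ d` and every relation
`P(e, 1/π, γ; ℓ, h(1/α)) = 0` of degree `≤ δ` over `K`: (a) the relation holds for all points of the product of the
fibres in place of `(ℓ, h(1/α))`; (b) if `P` involves at most one of the three numbers `e`, `1/π`, `γ` and this number is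
transcendental, then the relation holds for all values of this variable. -/
def OnlyTrivial (h : Fin r → PowerSeries ℚ) (δ d : ℕ) (α : Fin k → ℂ) : Prop :=
  ∀ ℓ : Fin k → ℂ, (∀ j, Complex.exp (ℓ j) = α j) →
  ∀ K : IntermediateField ℚ ℂ, FiniteDimensional ℚ K → Module.finrank ℚ K ≤ d →
  ∀ P : MvPolynomial (Fin 3 ⊕ Fin k × Option (Fin r)) K, P.totalDegree ≤ δ →
  MvPolynomial.aeval (Sum.elim three (point h α ℓ)) P = 0 →
    (∀ y ∈ Fibres h α, MvPolynomial.aeval (Sum.elim three y) P = 0) ∧
    ∀ i : Fin 3, Transcendental ℚ (three i) → (∀ i' : Fin 3, i' ≠ i → Sum.inl i' ∉ P.vars) →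
      ∀ v : Fin 3 → ℂ, MvPolynomial.aeval (Sum.elim v (point h α ℓ)) P = 0

end

theorem iter_eq {r : ℕ} (T : Polynomial ℤ) (A : Fin r → Fin r → Polynomial ℤ) (s : ℕ) :
    iter T A s = Pool.Agent.Y120.GH.itm T A s := by
  induction s with
  | zero => rfl
  | succ s ih =>
    funext i j
    rw [iter, Pool.Agent.Y120.GH.itm, ih]

theorem qu_eq {r : ℕ} {T : Polynomial ℤ} {A : Fin r → Fin r → Polynomial ℤ} (h : QuasiUnipotent T A) :
    Pool.Agent.Y120.GH.QU0 T A := by
  obtain ⟨e, M, K, Φ, he, hdet, hc, heq⟩ := h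
  have he0 : e ≠ 0 := by omega
  refine ⟨e, he0, M, K, Φ, hc, fun i j n => ?_, hdet⟩
  have h1 := heq i j n
  simp only [atPow] at h1
  rw [Pool.Agent.Y120.GH.expand_poly he0]
  simp only [Pool.Agent.Y120.GH.expand_poly he0]
  exact h1

theorem GFamily.fam {r : ℕ} {T : Polynomial ℤ} {A : Fin r → Fin r → Polynomial ℤ} {h : Fin r → PowerSeries ℚ}
    (hG : GFamily T A h) : Pool.Agent.Y916.Af.GFam T A h := by
  refine ⟨hG.T_ne, hG.ode, hG.size, hG.den, ?_, qu_eq hG.regular⟩
  obtain ⟨C, hC⟩ := hG.galochkin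
  refine ⟨C, fun m => ?_⟩
  obtain ⟨d, h1, h2, h3⟩ := hC m
  refine ⟨d, h1, h2, fun s hs i' j' => ?_⟩
  rw [← iter_eq]
  exact h3 s hs i' j'

/-- polynomials in one of the constants only -/
theorem one_const {r k : ℕ} {h : Fin r → PowerSeries ℚ} {α ℓ : Fin k → ℂ} (hα : ∀ j, IsAlgebraic ℚ (1 / α j))
    (hz : point h α ℓ ∈ Fibres h α) (K : IntermediateField ℚ ℂ) (hK : FiniteDimensional ℚ K)
    (P : MvPolynomial (Fin 3 ⊕ Fin k × Option (Fin r)) K)
    (hP : ∀ y ∈ Fibres h α, MvPolynomial.aeval (Sum.elim three y) P = 0) (i : Fin 3) (hi : Transcendental ℚ (three i))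
    (hv : ∀ i' : Fin 3, i' ≠ i → Sum.inl i' ∉ P.vars) (v : Fin 3 → ℂ) :
    MvPolynomial.aeval (Sum.elim v (point h α ℓ)) P = 0 := by
  classical
  set ρ : Fin 3 ⊕ Fin k × Option (Fin r) → Unit ⊕ Fin k × Option (Fin r) := Sum.map (fun _ => ()) id with hρ
  have hev : ∀ (u : Fin 3 → ℂ) (y : Fin k × Option (Fin r) → ℂ),
      MvPolynomial.aeval (Sum.elim (fun _ : Unit => u i) y) (MvPolynomial.rename ρ P) =
        MvPolynomial.aeval (Sum.elim u y) P := by
    intro u y
    rw [MvPolynomial.aeval_rename, MvPolynomial.aeval_def, MvPolynomial.aeval_def]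
    refine MvPolynomial.eval₂_congr (algebraMap K ℂ) (Sum.elim (fun _ : Unit => u i) y ∘ ρ) (Sum.elim u y) ?_
    intro x s hx hs
    rcases x with x | x
    · by_cases hxi : x = i
      · subst hxi
        rfl
      · exact absurd (MvPolynomial.mem_vars _ |>.2 ⟨s, MvPolynomial.mem_support_iff.2 hs, hx⟩) (hv x hxi)
    · rfl
  rw [← hev]
  have hw : AlgebraicIndependent ℚ (fun _ : Unit => three i) := by
    rw [algebraicIndependent_unique_type_iff]
    exact hi
  refine Pool.Agent.Y916.Af.indepE (x := fun j => 1 / α j) hα (z := point h α ℓ) hz (fun _ : Unit => three i) hw K hK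
    (MvPolynomial.rename ρ P) (fun y hy => ?_) (fun _ => v i)
  rw [hev]
  exact hP y hy

/-- the numbers `e` and `1 / π` are transcendental -/
theorem three_tr : Transcendental ℚ (three 0) ∧ Transcendental ℚ (three 1) := by
  constructor
  · intro h
    have h1 : IsAlgebraic ℚ ((Real.exp 1 : ℝ) : ℂ) := h
    apply Pool.Agent.H340R2.LW.transcendental_exp_one_complex
    simpa using h1
  · intro h
    have h1 : IsAlgebraic ℚ (1 / (Real.pi : ℂ)) := h
    have h2 := h1.inv
    rw [one_div, inv_inv] at h2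
    exact Pool.Agent.H340R2.LW.transcendental_pi_complex h2

/-- Let `h = (h_1, ..., h_r)` be a connected family of G-functions. There is `G₀` such that for all `G ≥ G₀` and all `k`,
`m`, `A`, `δ`, `d` there is `E` such that for all `H` and all complex numbers `ξ` with `|ξ| ≥ (H + 2)^E` which are roots
of a nonzero integral polynomial of degree at most `m` with coefficients at most `|ξ|^A` there is a set `S` of at most
four integers with the following property: for all different integers `u_1, ..., u_k` in `[1, H]` outside `S` only trivial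
relations of degree at most `δ` over number fields of degree at most `d` hold between `e`, `1/π`, `γ`, the logarithms of
the `α_j = ξ - G u_j` and the `h_i(1 / α_j)`. In particular `e` is not a root of a nonzero polynomial whose coefficients
are polynomials in these logarithms and values, and the same holds for `1/π`. -/
theorem result {r : ℕ} (T₀ : Polynomial ℤ) (A₀ : Fin r → Fin r → Polynomial ℤ) (h : Fin r → PowerSeries ℚ)
    (hG : GFamily T₀ A₀ h) (hc : Connected h) :
    (Transcendental ℚ (three 0) ∧ Transcendental ℚ (three 1)) ∧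
    ∃ G₀ : ℕ, ∀ G : ℕ, G₀ ≤ G → ∀ k m A δ d : ℕ, ∃ E : ℕ, ∀ (H : ℕ) (ξ : ℂ), ((H : ℝ) + 2) ^ E ≤ ‖ξ‖ →
      (∃ p : Polynomial ℤ, p ≠ 0 ∧ p.natDegree ≤ m ∧ (∀ j, |(p.coeff j : ℝ)| ≤ ‖ξ‖ ^ A) ∧
        Polynomial.aeval ξ p = 0) →
      ∃ S : Finset ℕ, S.card ≤ 4 ∧ ∀ u : Fin k → ℕ, Function.Injective u → (∀ j, 1 ≤ u j ∧ u j ≤ H ∧ u j ∉ S) →
        OnlyTrivial h δ d fun j => ξ - ((G * u j : ℕ) : ℂ) := by
  refine ⟨three_tr, ?_⟩
  obtain ⟨G₀, hG₀, hW⟩ := Pool.Agent.Y916.Af.winC Pool.Agent.Y916.Af.nr Pool.Agent.Y916.Af.t_br2 Pool.Agent.Y916.Af.conn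
    hG.fam hc
  obtain ⟨B, hB1, hB⟩ := Pool.Agent.Y916.Af.val_memC hG.size
  refine ⟨G₀, fun G hGG k m A δ d => ?_⟩
  obtain ⟨E, hE⟩ := hW G hGG 1 (fun _ => 1 / (Real.pi : ℂ)) 2 k m d δ A
  refine ⟨E + G + B + 1, fun H ξ hξ hp => ?_⟩
  have hH0 : (0 : ℝ) ≤ (H : ℝ) := Nat.cast_nonneg H
  have hH1 : (1 : ℝ) ≤ (H : ℝ) + 2 := by linarith
  have hH2 : (2 : ℝ) ≤ (H : ℝ) + 2 := by linarith
  have h2n : ∀ n : ℕ, (n : ℝ) + 1 ≤ ((H : ℝ) + 2) ^ n := fun n => by
    refine le_trans ?_ (pow_le_pow_left₀ (by norm_num) hH2 n)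
    have : n + 1 ≤ 2 ^ n := Nat.lt_two_pow_self
    exact_mod_cast this
  have hbig : (G : ℝ) * H + B < ‖ξ‖ := by
    refine lt_of_lt_of_le ?_ ((pow_le_pow_right₀ hH1 (by omega : G + B + 1 ≤ E + G + B + 1)).trans hξ)
    rw [pow_add, pow_add, pow_one]
    have h1 := h2n G
    have h2 := h2n B
    have hG0 : (0 : ℝ) ≤ G := Nat.cast_nonneg G
    have hB0 : (0 : ℝ) ≤ B := Nat.cast_nonneg B
    have h3 : ((G : ℝ) + 1) * (B + 1) * (H + 2) ≤ ((H : ℝ) + 2) ^ G * ((H : ℝ) + 2) ^ B * (H + 2) := by
      refine mul_le_mul_of_nonneg_right (mul_le_mul h1 h2 (by linarith) (by positivity)) (by linarith)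
    nlinarith [mul_nonneg hG0 hH0, mul_nonneg hB0 hH0, mul_nonneg hG0 hB0, mul_nonneg (mul_nonneg hG0 hB0) hH0]
  obtain ⟨S, hS, hS2⟩ := hE H ξ ((pow_le_pow_right₀ hH1 (by omega)).trans hξ) hp
    ![(Real.exp 1 : ℂ), (Real.eulerMascheroniConstant : ℂ)]
  refine ⟨S, ?_, fun u hu huS => ?_⟩
  · have h1 : (S.card : Cardinal) ≤ ((4 : ℕ) : Cardinal) := by
      refine hS.trans ?_
      refine (add_le_add (add_le_add Pool.Agent.Y916.Af.trdeg_pi le_rfl) le_rfl).trans (le_of_eq ?_)
      norm_num
    exact_mod_cast h1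
  · intro ℓ hℓ K hK hKd P hPd hP0
    have hα0 : ∀ j, (B : ℝ) < ‖ξ - ((G * u j : ℕ) : ℂ)‖ := by
      intro j
      have h5 := norm_sub_norm_le ξ ((G * u j : ℕ) : ℂ)
      rw [Complex.norm_natCast] at h5
      have h6 : ((G * u j : ℕ) : ℝ) ≤ G * H := by
        push_cast
        exact mul_le_mul_of_nonneg_left (by exact_mod_cast (huS j).2.1) (Nat.cast_nonneg G)
      linarith
    have hz : point h (fun j => ξ - ((G * u j : ℕ) : ℂ)) ℓ ∈ Fibres h fun j => ξ - ((G * u j : ℕ) : ℂ) :=
      fun j => hB _ (hα0 j)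
    -- the variables
    set ρ : Fin 3 ⊕ Fin k × Option (Fin r) → (Fin 1 ⊕ Fin 2) ⊕ Fin k × Option (Fin r) :=
      Sum.map ![Sum.inr 0, Sum.inl 0, Sum.inr 1] id with hρ
    have hev : ∀ y : Fin k × Option (Fin r) → ℂ, MvPolynomial.aeval (Sum.elim (Sum.elim (fun _ => 1 / (Real.pi : ℂ))
        ![(Real.exp 1 : ℂ), (Real.eulerMascheroniConstant : ℂ)]) y) (MvPolynomial.rename ρ P) =
        MvPolynomial.aeval (Sum.elim three y) P := by
      intro y
      rw [MvPolynomial.aeval_rename]
      congr 2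
      funext x
      rcases x with x | x
      · fin_cases x <;> rfl
      · rfl
    have ha : ∀ y ∈ Fibres h (fun j => ξ - ((G * u j : ℕ) : ℂ)), MvPolynomial.aeval (Sum.elim three y) P = 0 := by
      intro y hy
      rw [← hev]
      refine hS2 u hu huS ℓ hℓ K hK hKd (MvPolynomial.rename ρ P) ((MvPolynomial.totalDegree_rename_le _ _).trans hPd)
        ?_ y hy
      refine Eq.trans ?_ hP0
      exact hev _
    refine ⟨ha, fun i hi hv v => one_const (fun j => ?_) hz K hK P ha i hi hv v⟩
    obtain ⟨p, hp0, -, -, hp⟩ := hp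
    have h7 : IsAlgebraic ℚ ξ := by
      refine ⟨p.map (Int.castRingHom ℚ), ?_, ?_⟩
      · exact (Polynomial.map_ne_zero_iff (RingHom.injective_int _)).2 hp0
      · rw [← hp, Polynomial.aeval_def, Polynomial.aeval_def, Polynomial.eval₂_map]
        congr 1
    rw [one_div]
    refine (h7.sub ?_).inv
    exact isAlgebraic_natCast _

end Pool.Agent.Results.MP_725b61_nt.AlgebraicWindows
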