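import Pool.Agent.Y119.ML.Hyp
import Pool.Agent.Y113.EU.Three

/-!
# `e`, `1/π`, Euler's constant and the periods of the projective line minus `{0, ∞, α_1, …, α_r}`

The iterated integrals from `0` to `1 / t` of the forms `dy / y` and `dy / (1 - α_a y)` and the powers of `log t` are
periods: all the periods of the mixed Tate motives `π_1^{mot}(ℙ¹ ∖ {0, α_1⁻¹, …, α_r⁻¹, ∞}; 0, 1 / t)` of weight `≤ W`
are linear combinations of them. We consider arbitrary polynomial relations of degree `≤ δ` in the three numbers `e`,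
`1 / π` and Euler's constant `γ` with coefficients in the span of these periods over a number field `K` of degree `≤ D`.

For all but `M` integers `t` of every short window, and for all but few `k`-tuples of integers, every such relation is
the trivial one: it comes from relations between `e`, `1 / π`, `γ` alone. In particular, for such `t`, neither `e` nor
`1 / π` is a root of a nonzero polynomial of degree `≤ δ` whose coefficients are these periods, and the same holds for
`γ`, if `γ` is transcendental. There is no condition on the heights of the coefficients, and `M` does not depend on `K`.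
-/

set_option autoImplicit false

namespace Pool.Agent.Results.MP_725b61_nt.HyperlogarithmWindows

variable {r : ℕ}

/-- The hyperlogarithm of a word: the iterated integral from `0` to `x` of the forms `dy / y` (for the letter `none`) and
`dy / (1 - α_a y)` (for the letter `some a`); the first letter is the outermost integration. -/
noncomputable def HL (α : Fin r → ℤ) : List (Option (Fin r)) → ℝ → ℝ
  | [] => fun _ => 1
  | none :: w => fun x => ∫ y in (0 : ℝ)..x, HL α w y / y
  | some a :: w => fun x => ∫ y in (0 : ℝ)..x, HL α w y / (1 - α a * y)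

/-- the words of length at most `W` whose last letter is not `none` -/
abbrev Word (r W : ℕ) : Type := {w : List (Option (Fin r)) // w.length ≤ W ∧ w.getLast? ≠ some none}

/-- there are finitely many words -/
noncomputable instance (r W : ℕ) : Fintype (Word r W) := inferInstanceAs (Fintype (Pool.Agent.Y119.ML.WI r W))

/-- the numbers `(log t)^n HL_w(1 / t)`, `n ≤ W`, `w` of length at most `W` -/
noncomputable def num (α : Fin r → ℤ) (W t : ℕ) (b : Fin (W + 1) × Word r W) : ℂ :=
  (((Real.log t) ^ (b.1 : ℕ) * HL α b.2.1 (1 / t) : ℝ) : ℂ)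

/-- the three numbers `e`, `1 / π`, `γ` -/
noncomputable def three : Fin 3 → ℂ :=
  ![Complex.exp 1, 1 / (Real.pi : ℂ), ((Real.eulerMascheroniConstant : ℝ) : ℂ)]

/-- Every relation `∑_b P_b(e, 1/π, γ) x_b = 0` with polynomials `P_b` over `K` of total degree at most `δ` is trivial:
`P_b(e, 1/π, γ) = 0` for all `b`. -/
def OnlyTrivial {β : Type} [Fintype β] (K : IntermediateField ℚ ℂ) (δ : ℕ) (x : β → ℂ) : Prop :=
  ∀ P : β → MvPolynomial (Fin 3) K, (∀ b, (P b).totalDegree ≤ δ) →
    ∑ b, MvPolynomial.aeval three (P b) * x b = 0 → ∀ b, MvPolynomial.aeval three (P b) = 0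

section proofs

open Pool.Agent.Y119.ML Pool.Agent.Y120.GF Pool.Agent.Y113.EU

theorem HL_eq' (α : Fin r → ℤ) (w : List (Option (Fin r))) : HL α w = Pool.Agent.Y119.ML.HL α w := by
  induction w with
  | nil => rfl
  | cons o w ih =>
    rcases o with _ | a
    · funext x
      simp only [HL, Pool.Agent.Y119.ML.HL, ih]
    · funext x
      simp only [HL, Pool.Agent.Y119.ML.HL, ih]

theorem num_eq (α : Fin r → ℤ) (W t : ℕ) : num α W t = XX α W t := by
  funext b
  rw [num, HL_eq']
  rfl

theorem bad_of {β : Type} [Fintype β] (K : IntermediateField ℚ ℂ) (δ : ℕ) (x : β → ℂ) (h : ¬ OnlyTrivial K δ x) :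
    Bad ((VV three K δ).restrictScalars ℚ) x := by
  unfold OnlyTrivial at h
  push Not at h
  obtain ⟨P, hP, hP0, b, hb⟩ := h
  refine ⟨fun b => MvPolynomial.aeval three (P b), fun b => mem_VV three K δ (P b) (hP b), ?_, hP0⟩
  intro h2
  exact hb (congrFun h2 b)

theorem card_of {β : Type} {s : Set β} {M : ℝ} (hs : s.Finite) (h : ∀ S : Finset β, (∀ t ∈ S, t ∈ s) → (S.card : ℝ) ≤ M) :
    (s.ncard : ℝ) ≤ M := by
  rw [Set.ncard_eq_toFinset_card s hs]
  exact h _ fun t ht => hs.mem_toFinset.1 ht

end proofs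

/-- **Main result**, for the `M`, `E`, `c`, `C` depending only on `α`, `W`, `δ`, `D` (and `k`). -/
theorem result (r : ℕ) (α : Fin r → ℤ) (hα : Function.Injective α) (h0 : ∀ a, α a ≠ 0) (W δ D : ℕ) :
    -- short windows
    (∃ E M : ℕ, ∀ H t : ℕ, (H + 2) ^ E ≤ t → ∀ K : IntermediateField ℚ ℂ, FiniteDimensional ℚ K →
      Module.finrank ℚ K ≤ D →
      {u : ℕ | t ≤ u + H ∧ u ≤ t ∧ ¬ OnlyTrivial K δ (num α W u)}.Finite ∧
        {u : ℕ | t ≤ u + H ∧ u ≤ t ∧ ¬ OnlyTrivial K δ (num α W u)}.ncard ≤ M) ∧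
    -- tuples of integers in boxes
    ∀ k : ℕ, ∃ c C : ℝ, 0 < c ∧ ∀ K : IntermediateField ℚ ℂ, FiniteDimensional ℚ K → Module.finrank ℚ K ≤ D →
      ∀ (x : Fin k → ℕ) (N : ℕ), 1 ≤ N →
        {t : Fin k → ℕ | (∀ i, x i < t i ∧ t i ≤ x i + N) ∧ ¬ OnlyTrivial K δ
          fun b : Fin k → Fin (W + 1) × Word r W => ∏ i, num α W (t i) (b i)}.Finite ∧
        ({t : Fin k → ℕ | (∀ i, x i < t i ∧ t i ≤ x i + N) ∧ ¬ OnlyTrivial K δ
          fun b : Fin k → Fin (W + 1) × Word r W => ∏ i, num α W (t i) (b i)}.ncard : ℝ) ≤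
          C * (N : ℝ) ^ (k - 1) * ∑ i, (1 + N / ((x i : ℝ) + N) ^ c) := by
  classical
  constructor
  · obtain ⟨E, M, h⟩ := Pool.Agent.Y119.ML.win_XX α hα h0 W (D * (δ + 1) ^ 3)
    refine ⟨E, M, fun H t hHt K hK hKD => ?_⟩
    have hf : {u : ℕ | t ≤ u + H ∧ u ≤ t ∧ ¬ OnlyTrivial K δ (num α W u)}.Finite :=
      (Set.finite_Iic t).subset fun u hu => hu.2.1
    refine ⟨hf, ?_⟩
    have := Pool.Agent.Y113.EU.fin_VV three K hK δ
    have h1 := card_of (M := (M : ℝ)) hf fun S hS => by
      have h2 := h H t hHt ((Pool.Agent.Y113.EU.VV three K δ).restrictScalars ℚ)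
        (Pool.Agent.Y113.EU.rank_VV three K hK δ D hKD) S fun u hu => by
        obtain ⟨a, b, c⟩ := hS u hu
        refine ⟨a, b, ?_⟩
        rw [← num_eq]
        exact bad_of K δ _ c
      exact_mod_cast h2
    exact_mod_cast h1
  · intro k
    obtain ⟨c, C, hc, -, h⟩ := Pool.Agent.Y120.GF.count_k _ (Pool.Agent.Y119.ML.one_XX α hα h0 W) (D * (δ + 1) ^ 3) k
    refine ⟨c, C, hc, fun K hK hKD x N hN => ?_⟩
    have hf : {t : Fin k → ℕ | (∀ i, x i < t i ∧ t i ≤ x i + N) ∧ ¬ OnlyTrivial K δ
          fun b : Fin k → Fin (W + 1) × Word r W => ∏ i, num α W (t i) (b i)}.Finite := by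
      refine (Set.Finite.pi' (t := fun i => Set.Icc (x i) (x i + N)) fun i => Set.finite_Icc _ _).subset fun t ht i => ?_
      exact ⟨(ht.1 i).1.le, (ht.1 i).2⟩
    have := Pool.Agent.Y113.EU.fin_VV three K hK δ
    refine ⟨hf, card_of hf fun S hS => ?_⟩
    refine h ((Pool.Agent.Y113.EU.VV three K δ).restrictScalars ℚ)
      (Pool.Agent.Y113.EU.rank_VV three K hK δ D hKD) x N hN S fun t ht => ?_
    obtain ⟨a, b⟩ := hS t ht
    refine ⟨a, ?_⟩
    have h3 := bad_of K δ _ b
    simp only [num_eq] at h3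
    exact h3

end Pool.Agent.Results.MP_725b61_nt.HyperlogarithmWindows
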